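import Mathlib

/-!
Module T.Greedy of MP_48b749_nt (positive proportion). Greedy choice of pairs (place, class).
-/

set_option autoImplicit false

namespace Pool.Agent.BSDP

/-- There is a list of pairs `(v, g)` with distinct `v ∈ V`, `g ∈ U`, `g` detected at `v`, `g`
locally trivial at the places which come before `v`, such that an element of `U` which is locally
trivial at all places of the list is trivial. -/
theorem greedy {α β : Type} (V : Finset β) (U Triv : α → Prop) (Dt Sq : β → α → Prop)
    (h1 : ∀ g, U g → ¬ Triv g → ∃ v ∈ V, Dt v g) (h2 : ∀ v g, v ∈ V → Dt v g → ¬ Sq v g) :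
    ∃ l : List (β × α), (l.map Prod.fst).Nodup ∧ (∀ p ∈ l, p.1 ∈ V ∧ U p.2 ∧ Dt p.1 p.2) ∧
      l.Pairwise (fun p q => Sq p.1 q.2) ∧ ∀ g, U g → (∀ p ∈ l, Sq p.1 g) → Triv g := by
  classical
  -- a list of maximal length with the first three properties
  let P : List (β × α) → Prop := fun l => (l.map Prod.fst).Nodup ∧
    (∀ p ∈ l, p.1 ∈ V ∧ U p.2 ∧ Dt p.1 p.2) ∧ l.Pairwise (fun p q => Sq p.1 q.2)
  have hlen : ∀ l, P l → l.length ≤ V.card := by
    intro l hl
    have h3 : (l.map Prod.fst).toFinset ⊆ V := by
      intro v hv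
      rw [List.mem_toFinset, List.mem_map] at hv
      obtain ⟨p, hp, rfl⟩ := hv
      exact (hl.2.1 p hp).1
    have h4 := Finset.card_le_card h3
    rwa [List.toFinset_card_of_nodup hl.1, List.length_map] at h4
  have hex : ∃ n, ∃ l, P l ∧ V.card - l.length = n := ⟨_, [], ⟨by simp, by simp, by simp⟩, rfl⟩
  obtain ⟨l, hl, hn⟩ := Nat.find_spec hex
  refine ⟨l, hl.1, hl.2.1, hl.2.2, fun g hg hsq => ?_⟩
  by_contra htriv
  obtain ⟨v, hv, hd⟩ := h1 g hg htriv
  have hns := h2 v g hv hd
  have hP : P (l ++ [(v, g)]) := by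
    refine ⟨?_, ?_, ?_⟩
    · rw [List.map_append, List.nodup_append]
      refine ⟨hl.1, by simp, ?_⟩
      intro a ha b hb
      simp only [List.map_cons, List.map_nil, List.mem_singleton] at hb
      subst hb
      rintro rfl
      rw [List.mem_map] at ha
      obtain ⟨p, hp, hpv⟩ := ha
      exact hns (by rw [← hpv]; exact hsq p hp)
    · intro p hp
      rw [List.mem_append, List.mem_singleton] at hp
      rcases hp with hp | rfl
      · exact hl.2.1 p hp
      · exact ⟨hv, hg, hd⟩
    · rw [List.pairwise_append]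
      refine ⟨hl.2.2, by simp, ?_⟩
      intro p hp q hq
      rw [List.mem_singleton] at hq
      subst hq
      exact hsq p hp
  have h5 := hlen _ hP
  rw [List.length_append, List.length_singleton] at h5
  have h6 : V.card - (l ++ [(v, g)]).length < Nat.find hex := by
    rw [← hn, List.length_append, List.length_singleton]
    omega
  exact Nat.find_min hex h6 ⟨_, hP, rfl⟩

end Pool.Agent.BSDP
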